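import Mathlib

/-!
# Colourings of three-dimensional boxes and complete ultrafilters

Let `κ` be an infinite cardinal which carries a `κ`-complete free ultrafilter (that is `κ = ω` or
`κ` measurable).  Colourings of `X × Y × Z` with fewer than `κ` colours, where `X`, `Y` have at
least `κ` elements and `Z` has more than `κ`, are canonical on a box with sides of cardinality `κ`.
-/

set_option autoImplicit false
open Cardinal Order Filter

universe u

namespace Pool.Agent.Y428.Box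

/-- `κ` carries a `κ`-complete free ultrafilter. -/
def HasCompleteUltrafilter (κ : Cardinal.{u}) : Prop :=
  ∃ (K : Type u) (U : Ultrafilter K), #K = κ ∧ CardinalInterFilter (U : Filter K) κ ∧
    ∀ x : K, {x}ᶜ ∈ U

section Basic

variable {κ : Cardinal.{u}} {K : Type u} (U : Ultrafilter K)
  [hU : CardinalInterFilter (U : Filter K) κ]

include hU

/-- Small sets are null. -/
lemma small_null (hfree : ∀ x : K, {x}ᶜ ∈ U) (S : Set K) (hS : #S < κ) :
    ∀ᶠ x in (U : Filter K), x ∉ S := by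
  have h : ∀ᶠ x in (U : Filter K), ∀ s ∈ S, x ≠ s := by
    rw [eventually_cardinal_ball (c := κ) hS]
    intro s _
    exact hfree s
  filter_upwards [h] with x hx hxS
  exact hx x hxS rfl

/-- A function with few values is constant on a large set. -/
lemma ev_const {R : Type u} (hR : #R < κ) (f : K → R) :
    ∃ k, ∀ᶠ a in (U : Filter K), f a = k := by
  by_contra hcon
  push Not at hcon
  have h1 : ∀ k, ∀ᶠ a in (U : Filter K), f a ≠ k := hcon
  rw [← eventually_cardinal_forall (c := κ) hR] at h1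
  obtain ⟨a, ha⟩ := h1.exists
  exact ha (f a) rfl

/-- `κ` is a strong limit. -/
lemma strong_limit (hK : #K = κ) (hfree : ∀ x : K, {x}ᶜ ∈ U) (x : Cardinal.{u}) (hx : x < κ) :
    2 ^ x < κ := by
  by_contra hcon
  push Not at hcon
  induction x using Cardinal.inductionOn with
  | mk I =>
  have h1 : #K ≤ #(Set I) := by
    rw [Cardinal.mk_set, hK]
    exact hcon
  obtain ⟨f⟩ := h1
  have h2 : ∀ i : I, ∀ᶠ k in (U : Filter K), (i ∈ f k ↔ ∀ᶠ k in (U : Filter K), i ∈ f k) := by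
    intro i
    by_cases h : ∀ᶠ k in (U : Filter K), i ∈ f k
    · filter_upwards [h] with k hk
      exact ⟨fun _ => h, fun _ => hk⟩
    · have h' := Ultrafilter.eventually_not.2 h
      filter_upwards [h'] with k hk
      exact ⟨fun hk' => absurd hk' hk, fun h'' => absurd h'' h⟩
  rw [← eventually_cardinal_forall (c := κ) hx] at h2
  obtain ⟨k₀, hk₀⟩ := h2.exists
  have h3 : ∀ᶠ k in (U : Filter K), k = k₀ := by
    filter_upwards [h2] with k hk
    apply f.injective
    ext i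
    rw [hk i, hk₀ i]
  have h4 : ∀ᶠ k in (U : Filter K), k ≠ k₀ := hfree k₀
  obtain ⟨k, hk, hk'⟩ := (h3.and h4).exists
  exact hk' hk

end Basic

section Limits

variable {κ : Cardinal.{u}} {K : Type u} (U : Ultrafilter K)
  [hU : CardinalInterFilter (U : Filter K) κ] {R : Type u} (hR : #R < κ)

/-- The limit of a family of colours along the ultrafilter. -/
noncomputable def lim (f : K → R) : R := (ev_const U hR f).choose

lemma lim_spec (f : K → R) : ∀ᶠ a in (U : Filter K), f a = lim U hR f :=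
  (ev_const U hR f).choose_spec

end Limits

section Core

variable {κ : Cardinal.{u}} {K : Type u} [LinearOrder K] (U : Ultrafilter K)
  [hU : CardinalInterFilter (U : Filter K) κ] {R Z : Type u} (hR : #R < κ)
  (c : K → K → Z → R) (k₁ k₂ : R)

/-- The type of a point `z`. -/
def Ty (z : Z) : Prop :=
  lim U hR (fun a => lim U hR (fun b => c a b z)) = k₁ ∧
    lim U hR (fun b => lim U hR (fun a => c a b z)) = k₂

/-- Good behaviour of `a`, `b` and `z`. -/
def E (z : Z) (a b : K) : Prop :=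
  lim U hR (fun b => c a b z) = k₁ ∧ lim U hR (fun a => c a b z) = k₂ ∧
    a ≠ b ∧ c a b z = if a < b then k₁ else k₂

/-- The points which behave well with `A` and `B`. -/
def Alive (A B : Set K) : Set Z :=
  {z | Ty U hR c k₁ k₂ z ∧ ∀ a ∈ A, ∀ b ∈ B, E U hR c k₁ k₂ z a b}

/-- The finite character condition. -/
structure D (w : Z) (H : Set (K × K × Z)) : Prop where
  lt : ∀ p ∈ H, p.1 < p.2.1
  sep : ∀ p ∈ H, ∀ q ∈ H, p ≠ q → (p.2.1 < q.1 ∨ q.2.1 < p.1) ∧ p.2.2 ≠ q.2.2
  top : ∀ p ∈ H, ∀ q ∈ H, E U hR c k₁ k₂ w p.1 q.2.1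
  ty : ∀ r ∈ H, Ty U hR c k₁ k₂ r.2.2
  all : ∀ p ∈ H, ∀ q ∈ H, ∀ r ∈ H, E U hR c k₁ k₂ r.2.2 p.1 q.2.1

/-- Adding a triple. -/
lemma extend (hκ : ℵ₀ ≤ κ) (hfree : ∀ x : K, {x}ᶜ ∈ U) (hseg : ∀ x : K, #(Set.Iic x) < κ)
    (w : Z) (hw : Ty U hR c k₁ k₂ w)
    (hbig : ∀ A B : Set K, #A < κ → #B < κ → w ∈ Alive U hR c k₁ k₂ A B →
      κ < #(Alive U hR c k₁ k₂ A B))
    (H : Set (K × K × Z)) (hH : #H < κ) (hD : D U hR c k₁ k₂ w H) :
    ∃ t, t ∉ H ∧ D U hR c k₁ k₂ w (insert t H) := by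
  classical
  let C : Set Z := insert w ((fun r : K × K × Z => r.2.2) '' H)
  have hC : #C < κ := by
    refine lt_of_le_of_lt (Cardinal.mk_insert_le) ?_
    exact Cardinal.add_lt_of_lt hκ (lt_of_le_of_lt Cardinal.mk_image_le hH)
      (one_lt_aleph0.trans_le hκ)
  have hCty : ∀ z ∈ C, Ty U hR c k₁ k₂ z := by
    rintro z (rfl | ⟨r, hr, rfl⟩)
    · exact hw
    · exact hD.ty r hr
  have hCE : ∀ z ∈ C, ∀ p ∈ H, ∀ q ∈ H, E U hR c k₁ k₂ z p.1 q.2.1 := by
    rintro z (rfl | ⟨r, hr, rfl⟩) p hp q hq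
    · exact hD.top p hp q hq
    · exact hD.all p hp q hq r hr
  have habove : ∀ x : K, ∀ᶠ a in (U : Filter K), x < a := by
    intro x
    have := small_null U hfree (Set.Iic x) (hseg x)
    filter_upwards [this] with a ha
    exact not_le.1 ha
  -- the first coordinate
  have ha : ∀ᶠ a in (U : Filter K), (∀ p ∈ H, p.2.1 < a) ∧
      ∀ z ∈ C, lim U hR (fun b => c a b z) = k₁ ∧ ∀ q ∈ H, c a q.2.1 z = k₂ := by
    refine Eventually.and ?_ ?_
    · rw [eventually_cardinal_ball (c := κ) hH]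
      intro p _
      exact habove _
    · rw [eventually_cardinal_ball (c := κ) hC]
      intro z hz
      refine Eventually.and ?_ ?_
      · have := lim_spec U hR (fun a => lim U hR (fun b => c a b z))
        rw [(hCty z hz).1] at this
        exact this
      · rw [eventually_cardinal_ball (c := κ) hH]
        intro q hq
        have := lim_spec U hR (fun a => c a q.2.1 z)
        rw [(hCE z hz q hq q hq).2.1] at this
        exact this
  obtain ⟨a, ha1, ha2⟩ := ha.exists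
  -- the second coordinate
  have hb : ∀ᶠ b in (U : Filter K), (a < b) ∧
      ∀ z ∈ C, lim U hR (fun a => c a b z) = k₂ ∧ c a b z = k₁ ∧ ∀ p ∈ H, c p.1 b z = k₁ := by
    refine (habove a).and ?_
    rw [eventually_cardinal_ball (c := κ) hC]
    intro z hz
    refine Eventually.and ?_ (Eventually.and ?_ ?_)
    · have := lim_spec U hR (fun b => lim U hR (fun a => c a b z))
      rw [(hCty z hz).2] at this
      exact this
    · have := lim_spec U hR (fun b => c a b z)
      rw [(ha2 z hz).1] at this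
      exact this
    · rw [eventually_cardinal_ball (c := κ) hH]
      intro p hp
      have := lim_spec U hR (fun b => c p.1 b z)
      rw [(hCE z hz p hp p hp).1] at this
      exact this
  obtain ⟨b, hab, hb2⟩ := hb.exists
  let A : Set K := insert a ((fun p : K × K × Z => p.1) '' H)
  let B : Set K := insert b ((fun p : K × K × Z => p.2.1) '' H)
  have hA : #A < κ := by
    refine lt_of_le_of_lt (Cardinal.mk_insert_le) ?_
    exact Cardinal.add_lt_of_lt hκ (lt_of_le_of_lt Cardinal.mk_image_le hH)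
      (one_lt_aleph0.trans_le hκ)
  have hB : #B < κ := by
    refine lt_of_le_of_lt (Cardinal.mk_insert_le) ?_
    exact Cardinal.add_lt_of_lt hκ (lt_of_le_of_lt Cardinal.mk_image_le hH)
      (one_lt_aleph0.trans_le hκ)
  have key : ∀ z ∈ C, ∀ x ∈ A, ∀ y ∈ B, E U hR c k₁ k₂ z x y := by
    rintro z hz x (rfl | ⟨p, hp, rfl⟩) y (rfl | ⟨q, hq, rfl⟩)
    · exact ⟨(ha2 z hz).1, (hb2 z hz).1, hab.ne, by rw [if_pos hab]; exact (hb2 z hz).2.1⟩
    · have hlt : q.2.1 < x := ha1 q hq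
      exact ⟨(ha2 z hz).1, (hCE z hz q hq q hq).2.1, hlt.ne',
        by rw [if_neg (not_lt.2 hlt.le)]; exact (ha2 z hz).2 q hq⟩
    · have hlt : p.1 < y := (hD.lt p hp).trans ((ha1 p hp).trans hab)
      exact ⟨(hCE z hz p hp p hp).1, (hb2 z hz).1, hlt.ne,
        by rw [if_pos hlt]; exact (hb2 z hz).2.2 p hp⟩
    · exact hCE z hz p hp q hq
  have hwA : w ∈ Alive U hR c k₁ k₂ A B := ⟨hw, key w (Set.mem_insert _ _)⟩
  have hlarge := hbig A B hA hB hwA
  have hne : (Alive U hR c k₁ k₂ A B \ C).Nonempty := by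
    rw [Set.nonempty_iff_ne_empty]
    intro h0
    have h1 : Alive U hR c k₁ k₂ A B ⊆ C := Set.sdiff_eq_empty.1 h0
    exact absurd ((Cardinal.mk_le_mk_of_subset h1).trans hC.le) (not_le.2 hlarge)
  obtain ⟨z, ⟨hz1, hz2⟩, hzC⟩ := hne
  have hzH : ∀ r ∈ H, r.2.2 ≠ z := by
    intro r hr he
    exact hzC (Or.inr ⟨r, hr, he⟩)
  refine ⟨(a, b, z), fun h => hzH _ h rfl, ?_⟩
  have mA : ∀ p ∈ insert (a, b, z) H, p.1 ∈ A := by
    rintro p (rfl | hp)
    · exact Set.mem_insert _ _
    · exact Or.inr ⟨p, hp, rfl⟩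
  have mB : ∀ p ∈ insert (a, b, z) H, p.2.1 ∈ B := by
    rintro p (rfl | hp)
    · exact Set.mem_insert _ _
    · exact Or.inr ⟨p, hp, rfl⟩
  constructor
  · rintro p (rfl | hp)
    · exact hab
    · exact hD.lt p hp
  · rintro p (rfl | hp) q (rfl | hq) hne
    · exact absurd rfl hne
    · exact ⟨Or.inr (ha1 q hq), (hzH q hq).symm⟩
    · exact ⟨Or.inl (ha1 p hp), hzH p hp⟩
    · exact hD.sep p hp q hq hne
  · intro p hp q hq
    exact key w (Set.mem_insert _ _) _ (mA p hp) _ (mB q hq)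
  · rintro r (rfl | hr)
    · exact hz1
    · exact hD.ty r hr
  · rintro p hp q hq r (rfl | hr)
    · exact hz2 _ (mA p hp) _ (mB q hq)
    · exact key _ (Or.inr ⟨r, hr, rfl⟩) _ (mA p hp) _ (mB q hq)

/-- Three elements of the union of a chain lie in one member. -/
lemma chain_three {T : Type u} {c : Set (Set T)} (hc : IsChain (· ⊆ ·) c) {p q r : T}
    (hp : p ∈ ⋃₀ c) (hq : q ∈ ⋃₀ c) (hr : r ∈ ⋃₀ c) : ∃ s ∈ c, p ∈ s ∧ q ∈ s ∧ r ∈ s := by
  obtain ⟨s₁, h1, hp⟩ := hp
  obtain ⟨s₂, h2, hq⟩ := hq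
  obtain ⟨s₃, h3, hr⟩ := hr
  obtain ⟨s, hs, hs1, hs2⟩ : ∃ s ∈ c, s₁ ⊆ s ∧ s₂ ⊆ s := by
    rcases hc.total h1 h2 with h | h
    · exact ⟨s₂, h2, h, subset_rfl⟩
    · exact ⟨s₁, h1, subset_rfl, h⟩
  rcases hc.total hs h3 with h | h
  · exact ⟨s₃, h3, h (hs1 hp), h (hs2 hq), hr⟩
  · exact ⟨s, hs, hs1 hp, hs2 hq, h hr⟩

lemma exists_large (hκ : ℵ₀ ≤ κ) (hfree : ∀ x : K, {x}ᶜ ∈ U) (hseg : ∀ x : K, #(Set.Iic x) < κ)
    (w : Z) (hw : Ty U hR c k₁ k₂ w)
    (hbig : ∀ A B : Set K, #A < κ → #B < κ → w ∈ Alive U hR c k₁ k₂ A B →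
      κ < #(Alive U hR c k₁ k₂ A B)) :
    ∃ H : Set (K × K × Z), κ ≤ #H ∧ D U hR c k₁ k₂ w H := by
  obtain ⟨m, hm⟩ := zorn_subset {H : Set (K × K × Z) | D U hR c k₁ k₂ w H} (by
    intro ch hch hchain
    refine ⟨⋃₀ ch, ?_, fun s hs => Set.subset_sUnion_of_mem hs⟩
    constructor
    · rintro p ⟨s, hs, hp⟩
      exact (hch hs).lt p hp
    · intro p hp q hq hne
      obtain ⟨s, hs, h1, h2, -⟩ := chain_three hchain hp hq hq
      exact (hch hs).sep p h1 q h2 hne
    · intro p hp q hq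
      obtain ⟨s, hs, h1, h2, -⟩ := chain_three hchain hp hq hq
      exact (hch hs).top p h1 q h2
    · rintro p ⟨s, hs, hp⟩
      exact (hch hs).ty p hp
    · intro p hp q hq r hr
      obtain ⟨s, hs, h1, h2, h3⟩ := chain_three hchain hp hq hr
      exact (hch hs).all p h1 q h2 r h3)
  refine ⟨m, ?_, hm.prop⟩
  by_contra hlt
  push Not at hlt
  obtain ⟨t, ht, hDt⟩ := extend U hR c k₁ k₂ hκ hfree hseg w hw hbig m hlt hm.prop
  exact ht (hm.le_of_ge hDt (Set.subset_insert t m) (Set.mem_insert t m))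

/-- Sets of fewer than `κ` elements of `K` are bounded, and there are at most `κ` of them. -/
lemma mk_small (hκ : ℵ₀ ≤ κ) (hK : #K = κ) (hfree : ∀ x : K, {x}ᶜ ∈ U)
    (hseg : ∀ x : K, #(Set.Iic x) < κ) : #{s : Set K // #s < κ} ≤ κ := by
  have hbd : ∀ s : {s : Set K // #s < κ}, ∃ x : K, s.1 ⊆ Set.Iic x := by
    rintro ⟨s, hs⟩
    have h : ∀ᶠ x in (U : Filter K), ∀ y ∈ s, y ≤ x := by
      rw [eventually_cardinal_ball (c := κ) hs]
      intro y _
      filter_upwards [small_null U hfree (Set.Iic y) (hseg y)] with x hx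
      exact (not_le.1 hx).le
    obtain ⟨x, hx⟩ := h.exists
    exact ⟨x, hx⟩
  choose x hx using hbd
  have hinj : Function.Injective
      (fun s : {s : Set K // #s < κ} => (⟨x s, {y | y.1 ∈ s.1}⟩ : Σ x : K, Set (Set.Iic x))) := by
    intro s t hst
    apply Subtype.ext
    have h1 : x s = x t := congrArg Sigma.fst hst
    have h2 : ∀ (p q : Σ x : K, Set (Set.Iic x)), p = q →
        (fun y : Set.Iic p.1 => y.1) '' p.2 = (fun y : Set.Iic q.1 => y.1) '' q.2 := by
      rintro p q rfl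
      rfl
    have h3 := h2 _ _ hst
    have h4 : ∀ s : {s : Set K // #s < κ},
        (fun y : Set.Iic (x s) => y.1) '' {y : Set.Iic (x s) | y.1 ∈ s.1} = s.1 := by
      intro s
      ext y
      constructor
      · rintro ⟨y, hy, rfl⟩
        exact hy
      · intro hy
        exact ⟨⟨y, hx s hy⟩, hy, rfl⟩
    rw [← h4 s, ← h4 t]
    exact h3
  refine (Cardinal.mk_le_of_injective hinj).trans ?_
  rw [Cardinal.mk_sigma]
  refine (Cardinal.sum_le_mk_mul_iSup _).trans ?_
  rw [hK]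
  refine (mul_le_mul' le_rfl (ciSup_le' (a := κ) ?_)).trans (Cardinal.mul_eq_self hκ).le
  intro y
  rw [Cardinal.mk_set]
  exact (strong_limit U hK hfree _ (hseg y)).le

/-- A good point `w`. -/
lemma exists_point (hκ : ℵ₀ ≤ κ) (hK : #K = κ) (hfree : ∀ x : K, {x}ᶜ ∈ U)
    (hseg : ∀ x : K, #(Set.Iic x) < κ) (hZ : κ < #Z) :
    ∃ (k₁ k₂ : R) (w : Z), Ty U hR c k₁ k₂ w ∧
      ∀ A B : Set K, #A < κ → #B < κ → w ∈ Alive U hR c k₁ k₂ A B →
        κ < #(Alive U hR c k₁ k₂ A B) := by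
  let P : Type u := ({s : Set K // #s < κ} × {s : Set K // #s < κ}) × (R × R)
  have hP : #P ≤ κ := by
    have h1 := mk_small U hκ hK hfree hseg
    simp only [P, Cardinal.mk_prod, Cardinal.lift_id]
    calc (#{s : Set K // #s < κ} * #{s : Set K // #s < κ}) * (#R * #R)
        ≤ (κ * κ) * (κ * κ) := by gcongr
      _ = κ := by rw [Cardinal.mul_eq_self hκ, Cardinal.mul_eq_self hκ]
  let F : P → Set Z := fun p => Alive U hR c p.2.1 p.2.2 p.1.1.1 p.1.2.1
  let Bad : Set Z := ⋃ p : {p : P // #(F p) ≤ κ}, F p.1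
  have hBad : #Bad ≤ κ := by
    refine (Cardinal.mk_iUnion_le _).trans ?_
    refine (mul_le_mul' ((Cardinal.mk_subtype_le _).trans hP) (ciSup_le' (a := κ) ?_)).trans
      (Cardinal.mul_eq_self hκ).le
    exact fun p => p.2
  have hne : (Set.univ \ Bad).Nonempty := by
    rw [Set.nonempty_iff_ne_empty]
    intro h0
    have h1 : (Set.univ : Set Z) ⊆ Bad := Set.sdiff_eq_empty.1 h0
    have h2 := (Cardinal.mk_le_mk_of_subset h1).trans hBad
    rw [Cardinal.mk_univ] at h2
    exact absurd h2 (not_le.2 hZ)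
  obtain ⟨w, -, hw⟩ := hne
  refine ⟨_, _, w, ⟨rfl, rfl⟩, ?_⟩
  intro A B hA hB hwA
  by_contra hcon
  push Not at hcon
  exact hw (Set.mem_iUnion.2 ⟨⟨((⟨A, hA⟩, ⟨B, hB⟩), (_, _)), hcon⟩, hwA⟩)

end Core

/-- The canonical form for colourings of `K × K × Z`. -/
theorem core {κ : Cardinal.{u}} (hκ : ℵ₀ ≤ κ) (h : HasCompleteUltrafilter κ) {X Y Z R : Type u}
    (hX : κ ≤ #X) (hY : κ ≤ #Y) (hZ : κ < #Z) (hR : #R < κ) (c : X × Y × Z → R) :
    ∃ (x : κ.ord.ToType → X) (y : κ.ord.ToType → Y) (z : κ.ord.ToType → Z) (k₁ k₂ : R),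
      Function.Injective x ∧ Function.Injective y ∧ Function.Injective z ∧
      ∀ i j l, c (x i, y j, z l) = if i ≤ j then k₁ else k₂ := by
  classical
  obtain ⟨K, U, hK, hU, hfree⟩ := h
  have hKW : #K = #(κ.ord.ToType) := by rw [hK, Cardinal.mk_ord_toType]
  obtain ⟨e⟩ := Cardinal.eq.1 hKW
  let _ : LinearOrder K := LinearOrder.lift' e e.injective
  have hlt : ∀ a b : K, a < b ↔ e a < e b := fun a b => Iff.rfl
  have hle : ∀ a b : K, a ≤ b ↔ e a ≤ e b := fun a b => Iff.rfl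
  have hseg : ∀ x : K, #(Set.Iic x) < κ := by
    intro x
    have h1 : #(Set.Iic x) ≤ #(Set.Iic (e x)) := by
      refine Cardinal.mk_le_of_injective (f := fun y : Set.Iic x => (⟨e y.1, y.2⟩ : Set.Iic (e x))) ?_
      intro y y' hyy
      exact Subtype.ext (e.injective (congrArg Subtype.val hyy))
    refine h1.trans_lt ?_
    have h2 : Set.Iic (e x) = insert (e x) (Set.Iio (e x)) := Set.Iio_insert.symm
    rw [h2]
    refine lt_of_le_of_lt (Cardinal.mk_insert_le) ?_
    exact Cardinal.add_lt_of_lt hκ (Cardinal.mk_Iio_toType_ord_lt _) (one_lt_aleph0.trans_le hκ)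
  obtain ⟨eX⟩ : Nonempty (K ↪ X) := by
    rw [← Cardinal.le_def, hK]
    exact hX
  obtain ⟨eY⟩ : Nonempty (K ↪ Y) := by
    rw [← Cardinal.le_def, hK]
    exact hY
  let c' : K → K → Z → R := fun a b z => c (eX a, eY b, z)
  obtain ⟨k₁, k₂, w, hw, hbig⟩ := exists_point U hR c' hκ hK hfree hseg hZ
  obtain ⟨H, hH, hD⟩ := exists_large U hR c' k₁ k₂ hκ hfree hseg w hw hbig
  -- the first coordinates form a subset of `κ.ord.ToType` of order type `κ.ord`
  have hinj : Set.InjOn (fun p : K × K × Z => e p.1) H := by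
    intro p hp q hq hpq
    by_contra hne
    have h1 : p.1 = q.1 := e.injective hpq
    rcases (hD.sep p hp q hq hne).1 with h | h
    · exact absurd ((hD.lt p hp).trans h) (by rw [h1]; exact lt_irrefl _)
    · exact absurd ((hD.lt q hq).trans h) (by rw [h1]; exact lt_irrefl _)
  let S : Set κ.ord.ToType := (fun p : K × K × Z => e p.1) '' H
  have hS : #S = κ := by
    apply le_antisymm
    · refine (Cardinal.mk_set_le S).trans ?_
      rw [Cardinal.mk_ord_toType]
    · rw [Cardinal.mk_image_eq_of_injOn _ _ hinj]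
      exact hH
  have htype : Ordinal.type (fun a b : κ.ord.ToType => a < b)
      = Ordinal.type (fun a b : S => a < b) := by
    apply le_antisymm
    · rw [Ordinal.type_toType, Cardinal.ord_le, Ordinal.card_type, hS]
    · exact Ordinal.type_le_iff'.2 ⟨⟨⟨Subtype.val, Subtype.val_injective⟩, Iff.rfl⟩⟩
  obtain ⟨φ⟩ := Ordinal.type_eq.1 htype
  have hφ : ∀ i : κ.ord.ToType, ∃ p ∈ H, e p.1 = (φ i : κ.ord.ToType) := fun i => (φ i).2
  choose p hpH hp using hφ
  have hmono : ∀ i j, i < j → (p i).2.1 < (p j).1 := by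
    intro i j hij
    have h1 : φ i < φ j := φ.map_rel_iff.2 hij
    have h2 : (p i).1 < (p j).1 := by
      rw [hlt, hp, hp]
      exact h1
    have h3 : p i ≠ p j := fun h => by
      rw [h] at h2
      exact lt_irrefl _ h2
    rcases (hD.sep _ (hpH i) _ (hpH j) h3).1 with h | h
    · exact h
    · exact absurd (h2.trans ((hD.lt _ (hpH j)).trans h)) (lt_irrefl _)
  have hpne : ∀ i j, i ≠ j → p i ≠ p j := by
    intro i j hij he
    rcases lt_or_gt_of_ne hij with h | h
    · have := hmono i j h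
      rw [he] at this
      exact absurd (this.trans (hD.lt _ (hpH j))) (lt_irrefl _)
    · have := hmono j i h
      rw [he] at this
      exact absurd (this.trans (hD.lt _ (hpH j))) (lt_irrefl _)
  refine ⟨fun i => eX (p i).1, fun j => eY (p j).2.1, fun l => (p l).2.2, k₁, k₂, ?_, ?_, ?_, ?_⟩
  · intro i j hij
    by_contra hne
    have h1 := eX.injective hij
    rcases lt_or_gt_of_ne hne with h | h
    · exact absurd ((hD.lt _ (hpH i)).trans (hmono i j h)) (by rw [h1]; exact lt_irrefl _)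
    · exact absurd ((hD.lt _ (hpH j)).trans (hmono j i h)) (by rw [h1]; exact lt_irrefl _)
  · intro i j hij
    by_contra hne
    have h1 := eY.injective hij
    rcases lt_or_gt_of_ne hne with h | h
    · exact absurd ((hmono i j h).trans (hD.lt _ (hpH j))) (by rw [h1]; exact lt_irrefl _)
    · exact absurd ((hmono j i h).trans (hD.lt _ (hpH i))) (by rw [h1]; exact lt_irrefl _)
  · intro i j hij
    by_contra hne
    exact (hD.sep _ (hpH i) _ (hpH j) (hpne i j hne)).2 hij
  · intro i j l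
    have h1 := (hD.all _ (hpH i) _ (hpH j) _ (hpH l)).2.2.2
    have h2 : c' (p i).1 (p j).2.1 (p l).2.2 = c (eX (p i).1, eY (p j).2.1, (p l).2.2) := rfl
    rw [← h2, h1]
    by_cases hij : i ≤ j
    · rw [if_pos hij, if_pos]
      rcases hij.lt_or_eq with h | rfl
      · exact (hD.lt _ (hpH i)).trans ((hmono i j h).trans (hD.lt _ (hpH j)))
      · exact hD.lt _ (hpH i)
    · rw [if_neg hij, if_neg]
      push Not at hij
      exact not_lt.2 (hmono j i hij).le

/-- `ω` carries a complete free ultrafilter. -/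
theorem hasCompleteUltrafilter_aleph0 : HasCompleteUltrafilter (ℵ₀ : Cardinal.{u}) := by
  refine ⟨ULift.{u} ℕ, hyperfilter (ULift.{u} ℕ), by simp, cardinalInterFilter_aleph0 _, ?_⟩
  intro x
  exact (Set.finite_singleton x).compl_mem_hyperfilter

end Pool.Agent.Y428.Box
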